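import Pool.Agent.H126R2.CDC.Main

set_option autoImplicit false

/-!
No smallest counterexample to the circuit double cover conjecture has a cyclic edge-cut
with exactly four edges.
-/

namespace Pool.Agent.Results.MP_b1bfa0_co.NoCyclicFourCut

open Pool.Agent.H126R2.CDC (MGraph)

/-- `G` is a counterexample: it is bridgeless and has no circuit double cover. -/
def IsCounterexample {V E : Type} [Fintype V] [DecidableEq V] [Fintype E] [DecidableEq E]
    (G : MGraph V E) : Prop :=
  G.Bridgeless ∧ ¬ ∃ F : Multiset (Finset E), G.IsCDC F

/-- `G` is a smallest counterexample: a counterexample that minimises the number of vertices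
plus the number of edges among all counterexamples. -/
def IsSmallestCounterexample {V E : Type} [Fintype V] [DecidableEq V] [Fintype E] [DecidableEq E]
    (G : MGraph V E) : Prop :=
  IsCounterexample G ∧
    ∀ (V' E' : Type) [Fintype V'] [DecidableEq V'] [Fintype E'] [DecidableEq E']
      (G' : MGraph V' E'), IsCounterexample G' →
        Fintype.card V + Fintype.card E ≤ Fintype.card V' + Fintype.card E'

/-- The edges with exactly one end in `X`. -/
def cut {V E : Type} [Fintype V] [DecidableEq V] [Fintype E] [DecidableEq E]
    (G : MGraph V E) (X : Finset V) : Set E :=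
  {e | ∃ u v, G.ends e = s(u, v) ∧ u ∈ X ∧ v ∉ X}

/-- The vertices `u` and `v` lie in one component of `G - T`. -/
def Joined {V E : Type} (G : MGraph V E) (T : Finset E) (u v : V) : Prop :=
  Relation.ReflTransGen (fun a b => ∃ e, e ∉ T ∧ G.ends e = s(a, b)) u v

/-- `T` is an edge-cut: the set of the edges with exactly one end in some nonempty proper
subset of the vertex set. -/
def IsEdgeCut {V E : Type} [Fintype V] [DecidableEq V] [Fintype E] [DecidableEq E]
    (G : MGraph V E) (T : Finset E) : Prop :=
  ∃ X : Finset V, X.Nonempty ∧ X ≠ Finset.univ ∧ (T : Set E) = cut G X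

/-- At least two components of `G - T` contain a circuit: there are circuits `C` and `D` of
`G - T` with an edge `e` of `C`, an edge `f` of `D`, and ends `u` of `e` and `v` of `f` that lie
in different components of `G - T`. -/
def IsCyclic {V E : Type} [Fintype V] [DecidableEq V] [Fintype E] [DecidableEq E]
    (G : MGraph V E) (T : Finset E) : Prop :=
  ∃ C D : Finset E, G.IsCircuit C ∧ G.IsCircuit D ∧ Disjoint C T ∧ Disjoint D T ∧
    ∃ e ∈ C, ∃ f ∈ D, ∃ u ∈ G.ends e, ∃ v ∈ G.ends f, ¬ Joined G T u v

/-- No smallest counterexample to the circuit double cover conjecture has a cyclic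
4-edge-cut. -/
theorem result :
    ∀ (V E : Type) [Fintype V] [DecidableEq V] [Fintype E] [DecidableEq E] (G : MGraph V E),
      IsSmallestCounterexample G →
        ¬ ∃ T : Finset E, IsEdgeCut G T ∧ T.card = 4 ∧ IsCyclic G T := by
  intro V E _ _ _ _ G hG
  exact absurd (G.exists_cdc hG.1.1) hG.1.2

end Pool.Agent.Results.MP_b1bfa0_co.NoCyclicFourCut
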